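import Pool.Agent.M3.Correct
import Pool.Agent.M3.AlgPoly

/-!
# Euclidean Min-3DM in the plane has a polynomial-time approximation scheme
-/

namespace Pool.Agent.Results.MP_8a0a8e_lc.EuclideanMin3DMHasPTAS

open Pool.Agent.TM2Lib Pool.Agent.M3

/-- Points of the plane with rational coordinates. -/
abbrev Point : Type := ℚ × ℚ

/-- The bit string coding an object (see `Enc`: a natural number is the list of its binary digits,
an integer the pair of its sign and its absolute value, a rational number the pair of its numerator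
and its denominator, a list is a right-nested pair, and the resulting binary tree is written in
prefix code). -/
def code {α : Type} [Enc α] (a : α) : List Bool := D.encD (enc a)

/-- `f` is computable in polynomial time (by a Turing machine, in the length of the code of the
input), inputs being coded by `ca` and outputs by `cb`. -/
def PolyTime {α β : Type} (ca : α → List Bool) (cb : β → List Bool) (f : α → β) : Prop :=
  Nonempty (Turing.TM2ComputableInPolyTime ca cb f)

/-- The Euclidean distance. -/
noncomputable def dist2 (p q : Point) : ℝ := √(((p.1 : ℝ) - q.1) ^ 2 + ((p.2 : ℝ) - q.2) ^ 2)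

/-- A feasible solution for the point set `P`: a partition of `P` into three-element sets. -/
def Feasible (P : Finset Point) (π : Finset (Finset Point)) : Prop :=
  (∀ t ∈ π, t.card = 3) ∧ (∀ t ∈ π, ∀ t' ∈ π, t ≠ t' → Disjoint t t') ∧ π.biUnion id = P

/-- The perimeter of the triangle with vertex set `t` (in the double sum every side occurs twice).
-/
noncomputable def perimeter (t : Finset Point) : ℝ := (∑ p ∈ t, ∑ q ∈ t, dist2 p q) / 2

/-- The cost of a solution: its total perimeter. -/
noncomputable def cost (π : Finset (Finset Point)) : ℝ := ∑ t ∈ π, perimeter t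

/-- The set of triangles given by a list of triples of points. -/
def triangles (L : List (Point × Point × Point)) : Finset (Finset Point) :=
  (L.map fun t => {t.1, t.2.1, t.2.2}).toFinset

/-- Euclidean Min-3DM in the plane admits a PTAS: for every `ε > 0` there is a polynomial-time
algorithm `f` which, given any list of the elements (without repetitions) of a set `P` of `3n`
points with rational coordinates, outputs a list of the triangles of a partition of `P` whose cost
is at most `1 + ε` times the cost of every partition of `P`. -/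
def HasPTAS : Prop :=
  ∀ ε : ℝ, 0 < ε → ∃ f : List Point → List (Point × Point × Point),
    PolyTime code code f ∧
    ∀ (P : Finset Point) (l : List Point), l.Nodup → l.toFinset = P → 3 ∣ P.card →
      Feasible P (triangles (f l)) ∧
      ∀ π, Feasible P π → cost (triangles (f l)) ≤ (1 + ε) * cost π

theorem dist2_comm (p q : Point) : dist2 p q = dist2 q p := by
  unfold dist2
  congr 1
  ring

theorem dist2_self (p : Point) : dist2 p p = 0 := by
  unfold dist2
  simp

theorem perimeter_eq (a b c : Point) (h1 : a ≠ b) (h2 : b ≠ c) (h3 : a ≠ c) :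
    perimeter {a, b, c} = perQ (a, b, c) := by
  unfold perimeter
  have e1 : a ∉ ({b, c} : Finset Point) := by simp [h1, h3]
  have e2 : b ∉ ({c} : Finset Point) := by simp [h2]
  simp only [Finset.sum_insert e1, Finset.sum_insert e2, Finset.sum_singleton, dist2_self]
  rw [dist2_comm b a, dist2_comm c a, dist2_comm c b]
  have : perQ (a, b, c) = dist2 a b + dist2 b c + dist2 c a := rfl
  rw [this, dist2_comm c a]
  ring

theorem nodup_pts {t : Point × Point × Point} (h : (ptsQ t).Nodup) :
    t.1 ≠ t.2.1 ∧ t.2.1 ≠ t.2.2 ∧ t.1 ≠ t.2.2 := by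
  unfold ptsQ at h
  simp only [List.nodup_cons, List.mem_cons, List.not_mem_nil, or_false, not_or] at h
  exact ⟨h.1.1, h.2.1, h.1.2⟩

theorem mem_set {t : Point × Point × Point} {p : Point} :
    p ∈ ({t.1, t.2.1, t.2.2} : Finset Point) ↔ p ∈ ptsQ t := by
  unfold ptsQ
  simp

/-- lists of triples without repeated points -/
theorem of_nodup (L : List (Point × Point × Point)) (h : (L.flatMap ptsQ).Nodup) :
    Feasible (L.flatMap ptsQ).toFinset (triangles L) ∧ cost (triangles L) = (L.map perQ).sum := by
  rw [List.nodup_flatMap] at h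
  obtain ⟨h1, h2⟩ := h
  have hp : ∀ t ∈ L, ∀ t' ∈ L, t ≠ t' → List.Disjoint (ptsQ t) (ptsQ t') := by
    intro t ht t' ht' hne
    have : Std.Symm (Function.onFun List.Disjoint ptsQ) :=
      ⟨fun _ _ h _ ha hb => h hb ha⟩
    exact h2.forall ht ht' hne
  have hinj : ∀ t ∈ L, ∀ t' ∈ L, ({t.1, t.2.1, t.2.2} : Finset Point) = {t'.1, t'.2.1, t'.2.2} →
      t = t' := by
    intro t ht t' ht' he
    by_contra hne
    have h3 : t.1 ∈ ptsQ t := by simp [ptsQ]
    have h4 : t.1 ∈ ptsQ t' := mem_set.1 (he ▸ mem_set.2 h3)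
    exact hp t ht t' ht' hne h3 h4
  have hnd : L.Nodup := by
    refine h2.imp_of_mem ?_
    intro t t' _ _ hd he
    subst he
    exact hd (by simp [ptsQ] : t.1 ∈ ptsQ t) (by simp [ptsQ])
  have hmem : ∀ s, s ∈ triangles L ↔ ∃ t ∈ L, ({t.1, t.2.1, t.2.2} : Finset Point) = s := by
    intro s
    unfold triangles
    simp only [List.mem_toFinset, List.mem_map]
  refine ⟨⟨?_, ?_, ?_⟩, ?_⟩
  · intro s hs
    obtain ⟨t, ht, rfl⟩ := (hmem s).1 hs
    obtain ⟨a, b, c⟩ := nodup_pts (h1 t ht)
    rw [Finset.card_eq_three]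
    exact ⟨_, _, _, a, c, b, rfl⟩
  · intro s hs s' hs' hne
    obtain ⟨t, ht, rfl⟩ := (hmem s).1 hs
    obtain ⟨t', ht', rfl⟩ := (hmem s').1 hs'
    rw [Finset.disjoint_left]
    intro p hp1 hp2
    exact hp t ht t' ht' (fun h => hne (by rw [h])) (mem_set.1 hp1) (mem_set.1 hp2)
  · ext p
    simp only [Finset.mem_biUnion, id, List.mem_toFinset, List.mem_flatMap, hmem]
    constructor
    · rintro ⟨s, ⟨t, ht, rfl⟩, hs⟩
      exact ⟨t, ht, mem_set.1 hs⟩
    · rintro ⟨t, ht, hp⟩
      exact ⟨_, ⟨t, ht, rfl⟩, mem_set.2 hp⟩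
  · unfold cost triangles
    rw [List.sum_toFinset]
    · rw [List.map_map]
      congr 1
      apply List.map_congr_left
      intro t ht
      obtain ⟨a, b, c⟩ := nodup_pts (h1 t ht)
      exact perimeter_eq _ _ _ a b c
    · exact hnd.map_on fun t ht t' ht' he => hinj t ht t' ht' he

/-- every partition is given by a list of triples -/
theorem to_list (P : Finset Point) (π : Finset (Finset Point)) (h : Feasible P π) :
    ∃ L : List (Point × Point × Point), (L.flatMap ptsQ).Nodup ∧
      (L.flatMap ptsQ).toFinset = P ∧ triangles L = π := by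
  obtain ⟨h1, h2, h3⟩ := h
  have hc : ∀ s : Finset Point, ∃ t : Point × Point × Point, s ∈ π →
      t.1 ≠ t.2.1 ∧ t.2.1 ≠ t.2.2 ∧ t.1 ≠ t.2.2 ∧ s = {t.1, t.2.1, t.2.2} := by
    intro s
    by_cases hs : s ∈ π
    · obtain ⟨a, b, c, hab, hac, hbc, he⟩ := Finset.card_eq_three.1 (h1 s hs)
      exact ⟨(a, b, c), fun _ => ⟨hab, hbc, hac, he⟩⟩
    · exact ⟨((0, 0), (0, 0), (0, 0)), fun h => absurd h hs⟩
  choose f hf using hc
  have hm : ∀ p, p ∈ (π.toList.map f).flatMap ptsQ ↔ p ∈ P := by
    intro p
    rw [← h3]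
    simp only [List.mem_flatMap, List.mem_map, Finset.mem_toList, Finset.mem_biUnion, id]
    constructor
    · rintro ⟨t, ⟨s, hs, rfl⟩, hp⟩
      refine ⟨s, hs, ?_⟩
      rw [(hf s hs).2.2.2]
      exact mem_set.2 hp
    · rintro ⟨s, hs, hp⟩
      refine ⟨f s, ⟨s, hs, rfl⟩, ?_⟩
      rw [(hf s hs).2.2.2] at hp
      exact mem_set.1 hp
  refine ⟨π.toList.map f, ?_, ?_, ?_⟩
  · rw [List.nodup_flatMap]
    constructor
    · intro t ht
      obtain ⟨s, hs, rfl⟩ := List.mem_map.1 ht
      obtain ⟨a, b, c, -⟩ := hf s (Finset.mem_toList.1 hs)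
      unfold ptsQ
      simp only [List.nodup_cons, List.mem_cons, List.not_mem_nil, or_false, not_or,
        not_false_eq_true, List.nodup_nil, and_true]
      exact ⟨⟨a, c⟩, b⟩
    · rw [List.pairwise_map]
      refine (π.nodup_toList).imp_of_mem ?_
      intro s s' hs hs' hne
      rw [Finset.mem_toList] at hs hs'
      have := h2 s hs s' hs' hne
      rw [Finset.disjoint_left] at this
      intro p hp hp'
      refine this (a := p) ?_ ?_
      · rw [(hf s hs).2.2.2]
        exact mem_set.2 hp
      · rw [(hf s' hs').2.2.2]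
        exact mem_set.2 hp'
  · ext p
    rw [List.mem_toFinset, hm]
  · unfold triangles
    ext s
    simp only [List.mem_toFinset, List.mem_map, Finset.mem_toList]
    constructor
    · rintro ⟨t, ⟨s', hs', rfl⟩, rfl⟩
      rw [← (hf s' hs').2.2.2]
      exact hs'
    · intro hs
      exact ⟨f s, ⟨s, hs, rfl⟩, ((hf s hs).2.2.2).symm⟩

theorem result : HasPTAS := by
  intro ε hε
  obtain ⟨c, hc⟩ := alg_correct ε hε
  refine ⟨alg c, Comp.to_tm (ea := code) (eb := code) (f := alg c) (poly_alg c), ?_⟩
  intro P l hl hP h3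
  have hcard : 3 ∣ l.length := by
    rw [← hP, List.toFinset_card_of_nodup hl] at h3
    exact h3
  obtain ⟨h1, h2⟩ := hc l hl hcard
  have hnd : ((alg c l).flatMap ptsQ).Nodup := h1.nodup_iff.2 hl
  obtain ⟨f1, f2⟩ := of_nodup (alg c l) hnd
  have e1 : ((alg c l).flatMap ptsQ).toFinset = P := by
    rw [← hP]
    exact List.toFinset_eq_of_perm _ _ h1
  rw [e1] at f1
  refine ⟨f1, fun π hπ => ?_⟩
  obtain ⟨L, g1, g2, g3⟩ := to_list P π hπ
  have g4 : (L.flatMap ptsQ).Perm l := by
    rw [← hP] at g2
    exact List.perm_of_nodup_nodup_toFinset_eq g1 hl g2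
  have g5 := h2 L g4
  obtain ⟨-, g6⟩ := of_nodup L g1
  rw [f2, ← g3, g6]
  exact g5

end Pool.Agent.Results.MP_8a0a8e_lc.EuclideanMin3DMHasPTAS
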